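import Mathlib

/-!
# No positive solution of (E) tends to a (k+2)-periodic solution when the coefficients are
periodic of prime period at least two.

With `Q n = x n * x (n-1) * ... * x (n-k-1)` the recurrence (E) becomes
`Q (n+1) = α n + Q n / Q (n-k-1)`.  If `x` is asymptotic to a `(k+2)`-periodic sequence, then `Q`
converges, and the recurrence forces the periodic sequence `α` to be constant.
-/

set_option autoImplicit false

open Filter Topology

namespace Pool.Agent.Results.MP_93a94a_an.NeverTends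

/-- `x : ℤ → ℝ` (only its values at the indices `n ≥ -(2k+2)` matter) is a positive solution of
(E): its terms of index at least `-(2k+2)` are positive and for every `n ≥ 0`
`x (n+1) = α n / (x n ⋯ x (n-k)) + 1 / (x (n-k-2) ⋯ x (n-2k-2))`. -/
def IsPositiveSolution (k : ℕ) (α : ℕ → ℝ) (x : ℤ → ℝ) : Prop :=
  (∀ n : ℤ, -(2 * (k : ℤ) + 2) ≤ n → 0 < x n) ∧
  ∀ n : ℕ, x ((n : ℤ) + 1) =
    α n / (∏ i ∈ Finset.range (k + 1), x ((n : ℤ) - (i : ℤ))) +
      1 / (∏ i ∈ Finset.range (k + 1), x ((n : ℤ) - (k : ℤ) - 2 - (i : ℤ)))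

/-- `x` tends to a `(k+2)`-periodic solution of (E): some positive solution `y` of (E) satisfies
`y (n+k+2) = y n` for all indices `n ≥ -(2k+2)` and `x n - y n → 0`. -/
def TendsToPeriodicSolution (k : ℕ) (α : ℕ → ℝ) (x : ℤ → ℝ) : Prop :=
  ∃ y : ℤ → ℝ, IsPositiveSolution k α y ∧
    (∀ n : ℤ, -(2 * (k : ℤ) + 2) ≤ n → y (n + (k : ℤ) + 2) = y n) ∧
    Tendsto (fun n : ℕ => x (n : ℤ) - y (n : ℤ)) atTop (𝓝 0)

/-- `p` is the prime (least positive) period of the sequence `α`. -/
def IsPrimePeriod (α : ℕ → ℝ) (p : ℕ) : Prop :=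
  IsLeast {q : ℕ | 0 < q ∧ ∀ n, α (n + q) = α n} p

/-- the product of `k+2` consecutive terms starting at index `m`. -/
def blk (k : ℕ) (x : ℤ → ℝ) (m : ℤ) : ℝ := ∏ i ∈ Finset.range (k + 2), x (m + (i : ℤ))

lemma blk_pos {k : ℕ} {α : ℕ → ℝ} {x : ℤ → ℝ} (hx : IsPositiveSolution k α x) (m : ℤ)
    (hm : -(2 * (k : ℤ) + 2) ≤ m) : 0 < blk k x m := by
  refine Finset.prod_pos fun i _ => hx.1 _ ?_
  omega

lemma prod_desc (k : ℕ) (x : ℤ → ℝ) (a : ℤ) :
    ∏ i ∈ Finset.range (k + 1), x (a - (i : ℤ)) =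
      ∏ i ∈ Finset.range (k + 1), x (a - (k : ℤ) + (i : ℤ)) := by
  rw [← Finset.prod_range_reflect]
  refine Finset.prod_congr rfl fun i hi => ?_
  have hi' := Finset.mem_range.1 hi
  congr 1
  have : ((k + 1 - 1 - i : ℕ) : ℤ) = (k : ℤ) - i := by omega
  rw [this]; ring

/-- the block recurrence. -/
lemma blk_rec {k : ℕ} {α : ℕ → ℝ} {x : ℤ → ℝ} (hx : IsPositiveSolution k α x) (n : ℕ) :
    blk k x ((n : ℤ) - k) = α n + blk k x ((n : ℤ) - k - 1) / blk k x ((n : ℤ) - 2 * k - 2) := by
  set P : ℝ := ∏ i ∈ Finset.range (k + 1), x ((n : ℤ) - (k : ℤ) + (i : ℤ)) with hP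
  set R : ℝ := ∏ i ∈ Finset.range (k + 1), x ((n : ℤ) - (k : ℤ) - 2 - (k : ℤ) + (i : ℤ)) with hR
  have hPpos : 0 < P := Finset.prod_pos fun i _ => hx.1 _ (by omega)
  have hRpos : 0 < R := Finset.prod_pos fun i _ => hx.1 _ (by omega)
  have hmid : 0 < x ((n : ℤ) - k - 1) := hx.1 _ (by omega)
  have h1 : blk k x ((n : ℤ) - k) = P * x ((n : ℤ) + 1) := by
    unfold blk
    rw [Finset.prod_range_succ]
    congr 2
    push_cast; ring
  have h2 : blk k x ((n : ℤ) - k - 1) = P * x ((n : ℤ) - k - 1) := by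
    unfold blk
    rw [Finset.prod_range_succ']
    congr 1
    · refine Finset.prod_congr rfl fun i _ => ?_
      congr 1
      push_cast; ring
    · congr 1
      push_cast; ring
  have h3 : blk k x ((n : ℤ) - 2 * k - 2) = R * x ((n : ℤ) - k - 1) := by
    unfold blk
    rw [Finset.prod_range_succ]
    congr 1
    · refine Finset.prod_congr rfl fun i _ => ?_
      congr 1
      ring
    · congr 1
      push_cast; ring
  rw [h1, h2, h3, hx.2 n, prod_desc, prod_desc, ← hP, ← hR]
  field_simp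

lemma blk_tendsto {k : ℕ} {x : ℤ → ℝ} {y : ℕ → ℝ} (hy : ∀ n, y (n + (k + 2)) = y n)
    (hxy : Tendsto (fun n : ℕ => x (n : ℤ) - y n) atTop (𝓝 0)) :
    Tendsto (fun n : ℕ => blk k x (n : ℤ)) atTop (𝓝 (∏ i ∈ Finset.range (k + 2), y i)) := by
  have hyc : ∀ n : ℕ, ∏ i ∈ Finset.range (k + 2), y (n + i) = ∏ i ∈ Finset.range (k + 2), y i := by
    intro n
    induction n with
    | zero => simp
    | succ n ih =>
      rw [← ih, Finset.prod_range_succ (fun i => y (n + 1 + i)),
        Finset.prod_range_succ' (fun i => y (n + i))]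
      congr 1
      · refine Finset.prod_congr rfl fun i _ => ?_
        congr 1; ring
      · rw [← hy (n + 0)]
        congr 1
        ring
  -- y is bounded
  obtain ⟨B, hB⟩ : ∃ B : ℝ, ∀ n, |y n| ≤ B := by
    refine ⟨∑ i ∈ Finset.range (k + 2), |y i|, fun n => ?_⟩
    have hmod : y n = y (n % (k + 2)) := by
      conv_lhs => rw [← Nat.mod_add_div n (k + 2)]
      generalize n / (k + 2) = q
      induction q with
      | zero => simp
      | succ q ih =>
        rw [← ih, ← hy (n % (k + 2) + (k + 2) * q)]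
        congr 1
        ring
    rw [hmod]
    exact Finset.single_le_sum (f := fun i => |y i|) (fun i _ => abs_nonneg _)
      (Finset.mem_range.2 (Nat.mod_lt _ (by omega)))
  -- difference of products tends to zero
  have hdiff : ∀ m : ℕ, Tendsto (fun n : ℕ => (∏ i ∈ Finset.range m, x ((n : ℤ) + (i : ℤ))) -
      ∏ i ∈ Finset.range m, y (n + i)) atTop (𝓝 0) ∧
      ∃ C : ℝ, ∀ n, |∏ i ∈ Finset.range m, y (n + i)| ≤ C := by
    intro m
    induction m with
    | zero => exact ⟨by simp, 1, fun n => by simp⟩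
    | succ m ih =>
      obtain ⟨ih1, C, hC⟩ := ih
      have hshift : Tendsto (fun n : ℕ => x ((n : ℤ) + (m : ℤ)) - y (n + m)) atTop (𝓝 0) := by
        have := hxy.comp (tendsto_add_atTop_nat m)
        refine this.congr fun n => ?_
        simp
      refine ⟨?_, C * B, fun n => ?_⟩
      · have hb1 : Tendsto (fun n : ℕ => ((∏ i ∈ Finset.range m, x ((n : ℤ) + (i : ℤ))) -
            ∏ i ∈ Finset.range m, y (n + i)) * (x ((n : ℤ) + (m : ℤ)) - y (n + m))) atTop (𝓝 0) := by
          simpa using ih1.mul hshift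
        have hb2 : Tendsto (fun n : ℕ => ((∏ i ∈ Finset.range m, x ((n : ℤ) + (i : ℤ))) -
            ∏ i ∈ Finset.range m, y (n + i)) * y (n + m)) atTop (𝓝 0) := by
          refine ih1.zero_mul_isBoundedUnder_le ?_
          refine ⟨B, ?_⟩
          simp only [eventually_map]
          exact Eventually.of_forall fun n => by simpa using hB (n + m)
        have hb3 : Tendsto (fun n : ℕ => (∏ i ∈ Finset.range m, y (n + i)) *
            (x ((n : ℤ) + (m : ℤ)) - y (n + m))) atTop (𝓝 0) := by
          have := hshift.zero_mul_isBoundedUnder_le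
            (g := fun n : ℕ => ∏ i ∈ Finset.range m, y (n + i)) ?_
          · refine this.congr fun n => ?_
            ring
          · refine ⟨C, ?_⟩
            simp only [eventually_map]
            exact Eventually.of_forall fun n => by simpa using hC n
        have := (hb1.add hb2).add hb3
        simp only [add_zero] at this
        refine this.congr fun n => ?_
        rw [Finset.prod_range_succ, Finset.prod_range_succ]
        ring
      · rw [Finset.prod_range_succ, abs_mul]
        exact mul_le_mul (hC n) (hB _) (abs_nonneg _) ((abs_nonneg _).trans (hC n))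
  have := (hdiff (k + 2)).1.add_const (∏ i ∈ Finset.range (k + 2), y i)
  rw [zero_add] at this
  refine this.congr fun n => ?_
  rw [hyc n]
  simp [blk]

/-- A sequence with a positive period that converges is constant. -/
lemma const_of_tendsto {α : ℕ → ℝ} {p : ℕ} (hp : 0 < p) (hper : ∀ n, α (n + p) = α n) {c : ℝ}
    (h : Tendsto α atTop (𝓝 c)) (n : ℕ) : α n = c := by
  have h1 : ∀ j : ℕ, α (n + j * p) = α n := by
    intro j
    induction j with
    | zero => simp
    | succ j ih =>
      rw [← ih, ← hper (n + j * p)]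
      congr 1
      ring
  have h2 : Tendsto (fun j : ℕ => α (n + j * p)) atTop (𝓝 c) := by
    refine h.comp ?_
    refine tendsto_atTop_mono (fun j => ?_) tendsto_id
    simp only [id]
    nlinarith
  simp only [h1] at h2
  exact tendsto_nhds_unique tendsto_const_nhds h2

/-- **Main step**: if a positive solution is asymptotic to some real `(k+2)`-periodic sequence, then
the coefficients are eventually convergent. -/
lemma alpha_tendsto {k : ℕ} {α : ℕ → ℝ} (hα : ∀ n, 0 ≤ α n) {x : ℤ → ℝ}
    (hx : IsPositiveSolution k α x) {y : ℕ → ℝ} (hy : ∀ n, y (n + (k + 2)) = y n)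
    (hxy : Tendsto (fun n : ℕ => x (n : ℤ) - y n) atTop (𝓝 0)) :
    ∃ c : ℝ, Tendsto α atTop (𝓝 c) := by
  set c : ℝ := ∏ i ∈ Finset.range (k + 2), y i with hc
  have hQ : Tendsto (fun n : ℕ => blk k x (n : ℤ)) atTop (𝓝 c) := blk_tendsto hy hxy
  have hcn : 0 ≤ c := ge_of_tendsto' hQ fun n => (blk_pos hx _ (by omega)).le
  -- recurrence at n + (2k+2)
  have hrec : ∀ n : ℕ, blk k x ((n + (k + 2) : ℕ) : ℤ) = α (n + (2 * k + 2)) +
      blk k x ((n + (k + 1) : ℕ) : ℤ) / blk k x (n : ℤ) := by
    intro n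
    have := blk_rec hx (n + (2 * k + 2))
    convert this using 3
    · push_cast; ring
    · congr 1; push_cast; ring
    · congr 1; push_cast; ring
  have hQ2 : Tendsto (fun n : ℕ => blk k x ((n + (k + 2) : ℕ) : ℤ)) atTop (𝓝 c) :=
    hQ.comp (tendsto_add_atTop_nat (k + 2))
  have hQ1 : Tendsto (fun n : ℕ => blk k x ((n + (k + 1) : ℕ) : ℤ)) atTop (𝓝 c) :=
    hQ.comp (tendsto_add_atTop_nat (k + 1))
  rcases hcn.eq_or_lt with hc0 | hcpos
  · refine ⟨0, ?_⟩
    rw [← tendsto_add_atTop_iff_nat (2 * k + 2)]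
    refine squeeze_zero (fun n => hα _) (fun n => ?_) (hc0 ▸ hQ2)
    rw [hrec n]
    have h1 := blk_pos hx ((n + (k + 1) : ℕ) : ℤ) (by omega)
    have h2 := blk_pos hx (n : ℤ) (by omega)
    have := (div_pos h1 h2).le
    linarith
  · refine ⟨c - c / c, ?_⟩
    rw [← tendsto_add_atTop_iff_nat (2 * k + 2)]
    have := hQ2.sub (hQ1.div hQ hcpos.ne')
    refine this.congr fun n => ?_
    simp only [Pi.div_apply]
    rw [hrec n]
    ring

/-- The solution of (E) with given initial values `init 0, …, init (2k+2)` (the value at index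
`m - (2k+2)` is stored at `m`). -/
noncomputable def solAux (k : ℕ) (α : ℕ → ℝ) (init : ℕ → ℝ) : ℕ → ℝ
  | m =>
    if _h : m ≤ 2 * k + 2 then init m
    else α (m - (2 * k + 3)) / (∏ i : Fin (k + 1), solAux k α init (m - 1 - (i : ℕ))) +
      1 / (∏ i : Fin (k + 1), solAux k α init (m - k - 3 - (i : ℕ)))
  termination_by m => m
  decreasing_by all_goals omega

lemma solAux_pos {k : ℕ} {α : ℕ → ℝ} (hα : ∀ n, 0 ≤ α n) {init : ℕ → ℝ} (hi : ∀ n, 0 < init n)
    (m : ℕ) : 0 < solAux k α init m := by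
  induction m using Nat.strong_induction_on with
  | _ m ih =>
    rw [solAux]
    split_ifs with h
    · exact hi m
    · have h1 : 0 < ∏ i : Fin (k + 1), solAux k α init (m - 1 - (i : ℕ)) :=
        Finset.prod_pos fun i _ => ih _ (by omega)
      have h2 : 0 < ∏ i : Fin (k + 1), solAux k α init (m - k - 3 - (i : ℕ)) :=
        Finset.prod_pos fun i _ => ih _ (by omega)
      have h3 := div_nonneg (hα (m - (2 * k + 3))) h1.le
      have h4 := one_div_pos.2 h2
      linarith

lemma exists_solution (k : ℕ) {α : ℕ → ℝ} (hα : ∀ n, 0 ≤ α n) :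
    ∃ x : ℤ → ℝ, IsPositiveSolution k α x := by
  refine ⟨fun n => solAux k α (fun _ => 1) (n + (2 * k + 2)).toNat, fun n _ => ?_, fun n => ?_⟩
  · exact solAux_pos hα (fun _ => one_pos) _
  · have h0 : ((n : ℤ) + 1 + (2 * k + 2)).toNat = n + (2 * k + 3) := by omega
    beta_reduce
    rw [h0, solAux, dif_neg (by omega)]
    congr 1
    · congr 1
      · congr 1; omega
      · rw [Finset.prod_range]
        refine Finset.prod_congr rfl fun i _ => ?_
        have := i.2
        congr 1
        omega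
    · congr 1
      rw [Finset.prod_range]
      refine Finset.prod_congr rfl fun i _ => ?_
      have := i.2
      congr 1
      omega

/-- **Answer to Q1.**  Let `k ≥ 0` and let `α` be a nonnegative periodic sequence of prime period
`p ≥ 2`.  Then it is never true that each positive solution of (E) tends to a `(k+2)`-periodic
solution: indeed no positive solution of (E) whatsoever is asymptotic to a real sequence `y` with
`y (n+k+2) = y n`, be it a solution of (E) or not. -/
theorem result (k : ℕ) (α : ℕ → ℝ) (hα : ∀ n, 0 ≤ α n) (p : ℕ) (hp2 : 2 ≤ p)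
    (hp : IsPrimePeriod α p) :
    (¬ ∀ x : ℤ → ℝ, IsPositiveSolution k α x → TendsToPeriodicSolution k α x) ∧
    (∀ x : ℤ → ℝ, IsPositiveSolution k α x → ¬ TendsToPeriodicSolution k α x) ∧
    (∀ x : ℤ → ℝ, IsPositiveSolution k α x → ∀ y : ℕ → ℝ, (∀ n, y (n + (k + 2)) = y n) →
      ¬ Tendsto (fun n : ℕ => x (n : ℤ) - y n) atTop (𝓝 0)) := by
  have hp0 : 0 < p := hp.1.1
  have hper : ∀ n, α (n + p) = α n := hp.1.2
  have key : ∀ x : ℤ → ℝ, IsPositiveSolution k α x → ∀ y : ℕ → ℝ, (∀ n, y (n + (k + 2)) = y n) →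
      ¬ Tendsto (fun n : ℕ => x (n : ℤ) - y n) atTop (𝓝 0) := by
    intro x hx y hy hxy
    obtain ⟨c, hc⟩ := alpha_tendsto hα hx hy hxy
    have hconst := const_of_tendsto hp0 hper hc
    have h1 : 1 ∈ {q : ℕ | 0 < q ∧ ∀ n, α (n + q) = α n} :=
      ⟨one_pos, fun n => by rw [hconst, hconst]⟩
    have := hp.2 h1
    omega
  have key2 : ∀ x : ℤ → ℝ, IsPositiveSolution k α x → ¬ TendsToPeriodicSolution k α x := by
    rintro x hx ⟨y, hy, hyper, hxy⟩
    refine key x hx (fun n => y (n : ℤ)) (fun n => ?_) hxy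
    have := hyper (n : ℤ) (by omega)
    rw [← this]
    congr 1
  refine ⟨fun h => ?_, key2, key⟩
  -- there is a positive solution
  obtain ⟨x, hx⟩ := exists_solution k hα
  exact key2 x hx (h x hx)

end Pool.Agent.Results.MP_93a94a_an.NeverTends
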